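import Pool.Agent.H25.NQ.Base

/-!
# The base is a prime
-/

set_option autoImplicit false

namespace Pool.Agent.H25.NQ

open Pool.Agent.H26.NL Pool.Agent.H25.NP

lemma four_k {k : ℕ} (hk : 3 ≤ k) : (4 * k) ^ 3 ≤ (2 * k + 1) ^ 4 := by
  rcases Nat.lt_or_ge k 4 with h | h
  · have : k = 3 := by omega
    subst this; norm_num
  · calc (4 * k) ^ 3 = 64 * k ^ 3 := by ring
      _ ≤ 16 * k * k ^ 3 := Nat.mul_le_mul_right _ (by omega)
      _ = (2 * k) ^ 4 := by ring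
      _ ≤ (2 * k + 1) ^ 4 := Nat.pow_le_pow_left (by omega) 4

lemma r_ge {k r : ℕ} (hr : r.Prime) (hk : 3 ≤ k) (hodd : Odd k) (hkr : k ∣ r - 1) :
    2 * k + 1 ≤ r := by
  have h1 := Nat.le_of_dvd (by have := hr.two_le; omega) hkr
  have hrodd : r % 2 = 1 := by
    rcases hr.eq_two_or_odd with h | h
    · omega
    · exact h
  obtain ⟨c, hc⟩ := hkr
  obtain ⟨m, hm⟩ := hodd
  rcases Nat.lt_or_ge c 2 with h2 | h2
  · interval_cases c
    · omega
    · omega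
  · have : k * 2 ≤ k * c := Nat.mul_le_mul_left k h2
    omega

/-- The base is a prime. -/
theorem base_prime {r e d p k : ℕ} (hr : r.Prime) (he : 1 ≤ e) (hp : p.Prime) (hd4 : 4 ≤ d)
    (hk : 1 < k) (hodd : Odd k) (hkr : k ∣ r - 1)
    (h : ((r ^ e) ^ d - 1) / (r ^ e - 1) = p ^ k) : e = 1 := by
  have S := sol_of_eq (by omega) hp hr he hk h
  have hd : d.Prime := d_prime S.hq (by omega) hp S.eq
  have hk3 : 3 ≤ k := by
    rcases hodd with ⟨m, hm⟩; omega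
  rcases Nat.lt_or_ge d 7 with h7 | h7
  · exfalso
    interval_cases d
    · exact absurd hd (by norm_num)
    · exact no_five hp hr he hk hodd hkr h
    · exact absurd hd (by norm_num)
  by_contra he1
  obtain ⟨ℓ, hℓ, hℓe⟩ := Nat.exists_prime_and_dvd he1
  have hpd : d ∣ p - 1 := by
    have : Fact d.Prime := ⟨hd⟩
    have : Fact p.Prime := ⟨hp⟩
    exact S.dvd_sub_one
  by_cases hℓd : ℓ = d
  swap
  · obtain ⟨c, hc⟩ := hℓe
    have hc1 : 1 ≤ c := by
      rcases Nat.eq_zero_or_pos c with h1 | h1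
      · rw [h1, mul_zero] at hc; omega
      · exact h1
    have hs : 2 ≤ r ^ c := by
      calc 2 ≤ r := hr.two_le
        _ = r ^ 1 := (pow_one r).symm
        _ ≤ r ^ c := Nat.pow_le_pow_right hr.pos hc1
    refine no_other (s := r ^ c) hs hℓ hd hd4 hℓd hp hpd (k := k) ?_
    have h1 : (r ^ c) ^ ℓ = r ^ e := by rw [← pow_mul, mul_comm, ← hc]
    rw [h1]; exact S.eq
  · subst hℓd
    have hde : ℓ ≤ e := Nat.le_of_dvd (by omega) hℓe
    have hr2 := r_ge hr hk3 hodd hkr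
    have hqlow : (2 * k + 1) ^ ℓ ≤ r ^ e :=
      (Nat.pow_le_pow_left hr2 ℓ).trans (Nat.pow_le_pow_right hr.pos hde)
    rcases Nat.lt_or_ge ℓ 19 with h19 | h19
    · -- small `d`
      have hN : ℓ / 3 - ℓ / 4 = 1 := by
        have h2 : ℓ % 2 = 1 := by
          rcases hd.eq_two_or_odd with h | h
          · omega
          · exact h
        have h3 : ℓ % 3 ≠ 0 := by
          intro h
          have := (Nat.prime_dvd_prime_iff_eq Nat.prime_three hd).mp (Nat.dvd_of_mod_eq_zero h)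
          omega
        omega
      have hB := theoremB hd4 hp hr he hk hodd hkr h
      rw [hN, mul_one] at hB
      have hpk : p ^ k ≤ 2 * (r ^ e) ^ (ℓ - 1) := by
        have h2 := geom_le S.hq (ℓ - 1)
        have h3 : ℓ - 1 + 1 = ℓ := by omega
        rwa [h3, S.eq] at h2
      have hp3 : p ^ 3 ≤ 2 * (r ^ e) ^ (ℓ - 1) :=
        (Nat.pow_le_pow_right hp.pos hk3).trans hpk
      set Q := (r ^ e) ^ (ℓ - 1) with hQ
      have hQ0 : 0 < Q := pow_pos (by have := S.hq; omega) _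
      have h1 : Q * Q ^ 2 ≤ (4 * (2 ^ (ℓ - 1)) ^ 3) * Q ^ 2 := by
        calc Q * Q ^ 2 = Q ^ 3 := by ring
          _ ≤ (2 ^ (ℓ - 1) * p ^ 2) ^ 3 := Nat.pow_le_pow_left hB 3
          _ = (2 ^ (ℓ - 1)) ^ 3 * (p ^ 3) ^ 2 := by ring
          _ ≤ (2 ^ (ℓ - 1)) ^ 3 * (2 * Q) ^ 2 :=
              Nat.mul_le_mul_left _ (Nat.pow_le_pow_left hp3 2)
          _ = _ := by ring
      have h2 : Q ≤ 4 * (2 ^ (ℓ - 1)) ^ 3 := Nat.le_of_mul_le_mul_right h1 (by positivity)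
      have h3 : 4 * (2 ^ (ℓ - 1)) ^ 3 ≤ 16 ^ (ℓ - 1) := by
        have e1 : (16 : ℕ) ^ (ℓ - 1) = 2 ^ (ℓ - 1) * (2 ^ (ℓ - 1)) ^ 3 := by
          rw [← pow_succ', ← pow_mul, show (16 : ℕ) = 2 ^ 4 by norm_num, ← pow_mul]
          congr 1; ring
        rw [e1]
        refine Nat.mul_le_mul_right _ ?_
        calc 4 = 2 ^ 2 := by norm_num
          _ ≤ 2 ^ (ℓ - 1) := Nat.pow_le_pow_right (by norm_num) (by omega)
      have h4 : r ^ e ≤ 16 :=
        (Nat.pow_le_pow_iff_left (by omega : ℓ - 1 ≠ 0)).mp (h2.trans h3)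
      have h5 : 7 ^ 2 ≤ (2 * k + 1) ^ ℓ := by
        calc 7 ^ 2 ≤ (2 * k + 1) ^ 2 := Nat.pow_le_pow_left (by omega) 2
          _ ≤ (2 * k + 1) ^ ℓ := Nat.pow_le_pow_right (by omega) (by omega)
      omega
    · -- large `d`
      set D := (ℓ + 13) / 9 with hD
      have hD1 : ℓ + 5 ≤ 3 * k * D := by
        have h1 : ℓ + 5 ≤ 9 * D := by omega
        have h2 : 9 * D ≤ 3 * k * D := Nat.mul_le_mul_right D (by omega)
        omega
      have hH := (heightBound (D := D) hd4 hp hr he hk hodd hkr h).1 hD1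
      have h1 : (2 * k + 1) ^ (3 * ℓ) ≤ (2 * k + 1) ^ (16 * D) := by
        calc (2 * k + 1) ^ (3 * ℓ) = ((2 * k + 1) ^ ℓ) ^ 3 := by rw [← pow_mul, mul_comm 3 ℓ]
          _ ≤ (r ^ e) ^ 3 := Nat.pow_le_pow_left hqlow 3
          _ ≤ ((4 * k) ^ (4 * D)) ^ 3 := Nat.pow_le_pow_left hH 3
          _ = ((4 * k) ^ 3) ^ (4 * D) := by rw [← pow_mul, ← pow_mul, mul_comm 3 (4 * D)]
          _ ≤ ((2 * k + 1) ^ 4) ^ (4 * D) := Nat.pow_le_pow_left (four_k hk3) _
          _ = (2 * k + 1) ^ (16 * D) := by rw [← pow_mul]; congr 1; ring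
      have h2 := (Nat.pow_le_pow_iff_right (by omega : 1 < 2 * k + 1)).mp h1
      omega

end Pool.Agent.H25.NQ
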