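import Pool.Agent.H25.NW.Uni

/-!
# In the prime-power Nagell-Ljunggren equation the base is a prime

First step: a prime divisor of the exponent `e` of `q = r^e` can only be `d`.
-/

set_option autoImplicit false

namespace Pool.Agent.H25.NQ

open Pool.Agent.H26.NL Pool.Agent.H25.NP

lemma geo_coprime {s m n : ℕ} (hs : 2 ≤ s) (h : m.Coprime n) :
    Nat.Coprime (∑ i ∈ Finset.range m, s ^ i) (∑ i ∈ Finset.range n, s ^ i) := by
  have hmul : ∀ a : ℕ, (s - 1) * ∑ i ∈ Finset.range a, s ^ i = s ^ a - 1 := by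
    intro a
    have h1 : 1 ≤ s ^ a := Nat.one_le_pow _ _ (by omega)
    zify [h1, (by omega : 1 ≤ s)]
    exact mul_geom_sum (s : ℤ) a
  have h1 := Nat.pow_sub_one_gcd_pow_sub_one s m n
  rw [← hmul m, ← hmul n, Nat.gcd_mul_left] at h1
  have h2 : Nat.gcd m n = 1 := h
  rw [h2, pow_one] at h1
  exact Nat.eq_of_mul_eq_mul_left (by omega : 0 < s - 1) (by rw [h1, mul_one])

/-- A prime `ℓ ≠ d` does not divide `e`. -/
lemma no_other {s ℓ d p k : ℕ} (hs : 2 ≤ s) (hℓ : ℓ.Prime) (hd : d.Prime) (hd4 : 4 ≤ d)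
    (hne : ℓ ≠ d) (hp : p.Prime) (hpd : d ∣ p - 1)
    (h : ∑ i ∈ Finset.range d, (s ^ ℓ) ^ i = p ^ k) : False := by
  have hp1 : 0 < p - 1 := by have := hp.two_le; omega
  have hp5 : 5 ≤ p := by have := Nat.le_of_dvd hp1 hpd; omega
  have hodd : Odd p := hp.odd_of_ne_two (by omega)
  have hcop : Nat.Coprime d ℓ := (Nat.coprime_primes hd hℓ).mpr (Ne.symm hne)
  have e1 := geo_mul s ℓ d
  have e2 := geo_mul s d ℓ
  rw [h] at e1
  rw [mul_comm d ℓ, e1] at e2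
  set B := ∑ j ∈ Finset.range ℓ, (s ^ d) ^ j with hB
  set Gd := ∑ i ∈ Finset.range d, s ^ i with hGd
  set Gl := ∑ i ∈ Finset.range ℓ, s ^ i with hGl
  have hc := geo_coprime hs hcop
  rw [← hGd, ← hGl] at hc
  have h1 : Gd ∣ p ^ k := by
    refine hc.dvd_of_dvd_mul_left ?_
    exact ⟨B, e2⟩
  obtain ⟨a, hak, ha⟩ := (Nat.dvd_prime_pow hp).mp h1
  have hgt : d < Gd := geo_gt hs (by omega)
  have ha1 : 1 ≤ a := by
    rcases Nat.eq_zero_or_pos a with h2 | h2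
    · rw [h2, pow_zero] at ha; omega
    · exact h2
  have hlt : Gd < p ^ k := by
    rw [← h, hGd]
    have hsl : s < s ^ ℓ := by
      calc s = s ^ 1 := (pow_one s).symm
        _ < s ^ ℓ := Nat.pow_lt_pow_right (by omega) hℓ.one_lt
    refine Finset.sum_lt_sum (fun i _ => Nat.pow_le_pow_left hsl.le i) ⟨1, ?_, ?_⟩
    · rw [Finset.mem_range]; omega
    · rw [pow_one, pow_one]; exact hsl
  have hak' : a < k := by
    rw [ha] at hlt
    exact (Nat.pow_lt_pow_iff_right hp.one_lt).mp hlt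
  have hBeq : B = Gl * p ^ (k - a) := by
    have h2 : p ^ k = p ^ a * p ^ (k - a) := by rw [← pow_add]; congr 1; omega
    rw [ha, h2] at e2
    have h3 : p ^ a * (Gl * p ^ (k - a)) = p ^ a * B := by linarith
    exact (Nat.eq_of_mul_eq_mul_left (pow_pos hp.pos a) h3).symm
  -- `s^d = 1 mod p`
  have hsd : (p : ℤ) ∣ (s : ℤ) ^ d - 1 := by
    have h2 : (p : ℤ) ∣ (Gd : ℤ) := by
      rw [ha]; push_cast; exact dvd_pow_self _ (by omega)
    have h3 := mul_geom_sum (s : ℤ) d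
    rw [← h3]
    refine dvd_mul_of_dvd_right ?_ _
    rw [hGd] at h2
    push_cast at h2
    exact h2
  obtain ⟨u, hu⟩ := hsd
  have hsd' : (s : ℤ) ^ d = 1 + p * u := by linarith
  have hBz : (B : ℤ) = ∑ j ∈ Finset.range ℓ, (1 + (p : ℤ) * u) ^ j := by
    rw [hB]; push_cast; rw [hsd']
  have hpB : (p : ℤ) ∣ (B : ℤ) := by
    rw [hBeq]; push_cast
    exact dvd_mul_of_dvd_right (dvd_pow_self _ (by omega)) _
  have hpl : p = ℓ := by
    have h2 : (p : ℤ) ∣ (B : ℤ) - ℓ := by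
      have h3 : (B : ℤ) - ℓ = ∑ j ∈ Finset.range ℓ, ((1 + (p : ℤ) * u) ^ j - 1 ^ j) := by
        rw [Finset.sum_sub_distrib, ← hBz]
        simp
      rw [h3]
      refine Finset.dvd_sum fun j _ => ?_
      exact Dvd.dvd.trans ⟨u, by ring⟩ (sub_dvd_pow_sub_pow _ _ j)
    have h3 : (p : ℤ) ∣ (ℓ : ℤ) := by
      have := dvd_sub hpB h2
      simpa using this
    exact (Nat.prime_dvd_prime_iff_eq hp hℓ).mp (by exact_mod_cast h3)
  subst hpl
  -- `p^2` does not divide `B`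
  have hnot : ¬ p ^ 2 ∣ B := by
    intro h2
    have h3 := odd_sq_dvd_geom_sum₂_sub (1 : ℤ) u hodd
    simp only [one_pow, mul_one] at h3
    rw [← hBz] at h3
    have h4 : ((p : ℤ)) ^ 2 ∣ (B : ℤ) := by exact_mod_cast h2
    have h5 : ((p : ℤ)) ^ 2 ∣ (p : ℤ) := by
      have := dvd_sub h4 h3
      simpa using this
    have h6 : p ^ 2 ∣ p := by exact_mod_cast h5
    have h7 := Nat.le_of_dvd hp.pos h6
    nlinarith
  have hka : k - a = 1 := by
    by_contra h2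
    apply hnot
    rw [hBeq]
    exact dvd_mul_of_dvd_right (pow_dvd_pow p (by omega)) _
  rw [hka, pow_one] at hBeq
  -- sizes
  obtain ⟨n, hn⟩ : ∃ n, p = n + 1 := ⟨p - 1, by omega⟩
  have hlow : (s ^ d) ^ n ≤ B := by
    rw [hB, hn, Finset.sum_range_succ]
    exact Nat.le_add_left _ _
  have hup : Gl ≤ 2 * s ^ n := by
    rw [hGl, hn]
    exact geom_le hs n
  have hs0 : 0 < s ^ n := pow_pos (by omega) n
  have h3 : s ^ ((d - 1) * n) * s ^ n ≤ (2 * p) * s ^ n := by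
    calc s ^ ((d - 1) * n) * s ^ n = (s ^ d) ^ n := by
          rw [← pow_add, ← pow_mul]
          congr 1
          obtain ⟨c, hc⟩ : ∃ c, d = c + 1 := ⟨d - 1, by omega⟩
          rw [hc, Nat.add_sub_cancel]; ring
      _ ≤ B := hlow
      _ = Gl * p := hBeq
      _ ≤ (2 * s ^ n) * p := Nat.mul_le_mul_right p hup
      _ = (2 * p) * s ^ n := by ring
  have h4 : s ^ ((d - 1) * n) ≤ 2 * p := Nat.le_of_mul_le_mul_right h3 hs0
  have h5 : 2 ^ (3 * n) ≤ s ^ ((d - 1) * n) := by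
    calc 2 ^ (3 * n) ≤ s ^ (3 * n) := Nat.pow_le_pow_left hs _
      _ ≤ s ^ ((d - 1) * n) := Nat.pow_le_pow_right (by omega)
          (Nat.mul_le_mul_right n (by omega))
  have h6 : n < 2 ^ n := Nat.lt_two_pow_self
  have h7 : 2 ^ (3 * n) = 2 ^ n * 2 ^ n * 2 ^ n := by rw [← pow_add, ← pow_add]; congr 1; ring
  have h8 : 4 ≤ n := by omega
  have h9 : (n + 1) * (n + 1) * (n + 1) ≤ 2 ^ n * 2 ^ n * 2 ^ n :=
    Nat.mul_le_mul (Nat.mul_le_mul h6 h6) h6
  rw [← h7] at h9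
  have h10 : (n + 1) * (n + 1) * (n + 1) ≤ 2 * (n + 1) := by
    calc _ ≤ _ := h9
      _ ≤ _ := h5
      _ ≤ 2 * p := h4
      _ = 2 * (n + 1) := by rw [hn]
  nlinarith

end Pool.Agent.H25.NQ
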